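import Pool.Agent.FX.Defs

/-! # MP_f13560: paths which leave the left column one row below the top, definitions -/

open MeasureTheory Pool.Agent.FX

namespace Pool.Agent.FZ

/-- the cell in column `x`, row `N - 1` -/
def cA (N x : ℕ) : Fin (N + 1) × Fin (N + 1) := (⟨min x N, by omega⟩, ⟨N - 1, by omega⟩)

/-- the cell in column `x`, row `N` -/
def cB (N x : ℕ) : Fin (N + 1) × Fin (N + 1) := (⟨min x N, by omega⟩, ⟨N, by omega⟩)

/-- the path up to row `N - 1`, right to column `k`, up, right (`k = 0`: the corner path) -/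
def pk (N k j : ℕ) : Fin (N + 1) × Fin (N + 1) :=
  if j < N then (⟨0, by omega⟩, ⟨min j N, by omega⟩)
  else if j < N + k then (⟨min (j - (N - 1)) N, by omega⟩, ⟨N - 1, by omega⟩)
  else (⟨min (j - N) N, by omega⟩, ⟨N, by omega⟩)

/-- the recursion `u_{x+1} = a_{x+1} - b_x - u_x⁻` -/
noncomputable def u (N : ℕ) (ω : Env N) : ℕ → ℝ
  | 0 => 0
  | x + 1 => ω (cA N (x + 1)) - ω (cB N x) - max (-u N ω x) 0

/-- the map: `a_x - u_x⁺` for `1 ≤ x < k`, `a_k - u_k`, `b_x + u_x⁺` for `1 ≤ x < k`, `b_0 + u_k` -/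
noncomputable def Phi (N k : ℕ) (ω : Env N) : Env N := fun c =>
  if c.2.val = N - 1 ∧ 1 ≤ c.1.val ∧ c.1.val < k then ω c - max (u N ω c.1.val) 0
  else if c.2.val = N - 1 ∧ c.1.val = k then ω c - u N ω k
  else if c.2.val = N ∧ 1 ≤ c.1.val ∧ c.1.val < k then ω c + max (u N ω c.1.val) 0
  else if c.2.val = N ∧ c.1.val = 0 then ω c + u N ω k
  else ω c

end Pool.Agent.FZ
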