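import Pool.Agent.FX.PathL
import Pool.Agent.FZ.Defs

/-! # MP_f13560: the deterministic part -/

open MeasureTheory Pool.Agent.FX

namespace Pool.Agent.FZ

lemma ext_at {N : ℕ} (ω : Env N) {x y : ℕ} (hx : x < N + 1) (hy : y < N + 1) :
    ext ω (x, y) = ω (⟨x, hx⟩, ⟨y, hy⟩) := by
  simp [ext, hx, hy]

lemma at_cA {N : ℕ} (ω : Env N) {x : ℕ} (hx : x ≤ N) : ω (cA N x) = ext ω (x, N - 1) := by
  rw [ext_at ω (by omega) (by omega)]; simp [cA, min_eq_left hx]

lemma at_cB {N : ℕ} (ω : Env N) {x : ℕ} (hx : x ≤ N) : ω (cB N x) = ext ω (x, N) := by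
  rw [ext_at ω (by omega) (by omega)]; simp [cB, min_eq_left hx]

lemma ext_Phi {N k : ℕ} (ω : Env N) {x y : ℕ} (hx : x ≤ N) (hy : y ≤ N) :
    ext (Phi N k ω) (x, y) = if y = N - 1 ∧ 1 ≤ x ∧ x < k then ext ω (x, y) - max (u N ω x) 0
      else if y = N - 1 ∧ x = k then ext ω (x, y) - u N ω k
      else if y = N ∧ 1 ≤ x ∧ x < k then ext ω (x, y) + max (u N ω x) 0
      else if y = N ∧ x = 0 then ext ω (x, y) + u N ω k
      else ext ω (x, y) := by
  rw [ext_at _ (by omega) (by omega), ext_at _ (by omega) (by omega)]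
  rfl

lemma lpp_right' (w : ℕ × ℕ → ℝ) (i j : ℕ) : lpp w i j + w (i + 1, j) ≤ lpp w (i + 1) j := by
  cases j with
  | zero => simp [lpp]
  | succ j => rw [lpp]; linarith [le_max_left (lpp w i (j + 1)) (lpp w (i + 1) j)]

lemma lpp_up' (w : ℕ × ℕ → ℝ) (i j : ℕ) : lpp w i j + w (i, j + 1) ≤ lpp w i (j + 1) := by
  cases i with
  | zero => simp [lpp]
  | succ i => rw [lpp]; linarith [le_max_right (lpp w i (j + 1)) (lpp w (i + 1) j)]

lemma lpp_run (w : ℕ × ℕ → ℝ) (x y d : ℕ) :
    lpp w x y + ∑ i ∈ Finset.range d, w (x + 1 + i, y) ≤ lpp w (x + d) y := by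
  induction d with
  | zero => simp
  | succ d ih =>
    rw [Finset.sum_range_succ]
    have := lpp_right' w (x + d) y
    rw [show x + 1 + d = x + d + 1 by omega, show x + (d + 1) = x + d + 1 by omega]
    linarith

lemma lpp_drop {w w' : ℕ × ℕ → ℝ} {i j : ℕ} (h : ∀ a ≤ i, ∀ b ≤ j, w' (a, b) ≤ w (a, b)) :
    lpp w' i j + (w (i, j) - w' (i, j)) ≤ lpp w i j := by
  cases i with
  | zero =>
    cases j with
    | zero => simp [lpp]
    | succ j =>
      have := lpp_mono (i := 0) (j := j) fun a ha b hb => h a ha b (by omega)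
      simp only [lpp]; linarith
  | succ i =>
    cases j with
    | zero =>
      have := lpp_mono (i := i) (j := 0) fun a ha b hb => h a (by omega) b hb
      simp only [lpp]; linarith
    | succ j =>
      have h1 := lpp_mono (i := i) (j := j + 1) fun a ha b hb => h a (by omega) b hb
      have h2 := lpp_mono (i := i + 1) (j := j) fun a ha b hb => h a ha b (by omega)
      rw [lpp, lpp]
      have := max_le_max h1 h2
      linarith

/-- the top run -/
lemma lpp_top (w : ℕ × ℕ → ℝ) {N x : ℕ} (hN : 1 ≤ N) (hx : x ≤ N) :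
    lpp w x (N - 1) + (∑ i ∈ Finset.range (N + 1), w (i, N) - ∑ i ∈ Finset.range x, w (i, N)) ≤
      lpp w N N := by
  have h1 := lpp_up' w x (N - 1)
  rw [Nat.sub_add_cancel hN] at h1
  have h2 := lpp_run w x N (N - x)
  rw [show x + (N - x) = N by omega] at h2
  have h3 : ∑ i ∈ Finset.range (N + 1), w (i, N) = ∑ i ∈ Finset.range x, w (i, N) + w (x, N) +
      ∑ i ∈ Finset.range (N - x), w (x + 1 + i, N) := by
    rw [← Finset.sum_range_succ (fun i => w (i, N)) x,
      ← Finset.sum_range_add (fun i => w (i, N)) (x + 1) (N - x)]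
    congr 2; omega
  linarith

/-- the length of `pk` -/
lemma len_pk {N k : ℕ} (hN : 1 ≤ N) (hk : k ≤ N) (ω : Env N) :
    len N (pk N k) ω = lpp (ext ω) 0 (N - 1) + ∑ i ∈ Finset.range k, ext ω (i + 1, N - 1) +
      (∑ i ∈ Finset.range (N + 1), ext ω (i, N) - ∑ i ∈ Finset.range k, ext ω (i, N)) := by
  have h3 : ∑ i ∈ Finset.range (N + 1), ext ω (i, N) = ∑ i ∈ Finset.range k, ext ω (i, N) +
      ∑ i ∈ Finset.range (N + 1 - k), ext ω (k + i, N) := by
    rw [← Finset.sum_range_add (fun i => ext ω (i, N)) k (N + 1 - k)]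
    congr 2; omega
  unfold len
  rw [h3, lpp_zero_left, show N - 1 + 1 = N by omega,
    show 2 * N + 1 = N + k + (N + 1 - k) by omega, Finset.sum_range_add, Finset.sum_range_add,
    add_sub_cancel_left]
  congr 1
  · congr 1
    · refine Finset.sum_congr rfl fun j hj => ?_
      have hj' : j < N := Finset.mem_range.1 hj
      rw [ext_at ω (by omega) (by omega)]
      simp only [pk, if_pos hj']
      congr 2
      simp [hj'.le]
    · refine Finset.sum_congr rfl fun j hj => ?_
      have hj' : j < k := Finset.mem_range.1 hj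
      rw [ext_at ω (by omega) (by omega)]
      simp only [pk, if_neg (show ¬ N + j < N by omega), if_pos (show N + j < N + k by omega)]
      congr 3
      omega
  · refine Finset.sum_congr rfl fun j hj => ?_
    have hj' : j < N + 1 - k := Finset.mem_range.1 hj
    rw [ext_at ω (by omega) (by omega)]
    simp only [pk, if_neg (show ¬ N + k + j < N by omega),
      if_neg (show ¬ N + k + j < N + k by omega)]
    congr 3
    omega

/-- `M_x = ∑_{i ≤ x} u_i⁺` -/
noncomputable def M (N : ℕ) (ω : Env N) (x : ℕ) : ℝ := ∑ i ∈ Finset.range x, max (u N ω (i + 1)) 0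

lemma M_succ {N : ℕ} (ω : Env N) (x : ℕ) : M N ω (x + 1) = M N ω x + max (u N ω (x + 1)) 0 := by
  unfold M; rw [Finset.sum_range_succ]

lemma M_nonneg {N : ℕ} (ω : Env N) (x : ℕ) : 0 ≤ M N ω x :=
  Finset.sum_nonneg fun _ _ => le_max_right _ _

lemma u_succ {N : ℕ} (ω : Env N) {x : ℕ} (hx : x + 1 ≤ N) :
    u N ω (x + 1) = ext ω (x + 1, N - 1) - ext ω (x, N) - max (-u N ω x) 0 := by
  rw [u, at_cA ω hx, at_cB ω (by omega)]

lemma pos_sub_neg (t : ℝ) : max t 0 - max (-t) 0 = t := by
  rcases le_total t 0 with h | h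
  · rw [max_eq_right h, max_eq_left (by linarith)]; ring
  · rw [max_eq_left h, max_eq_right (by linarith)]; ring

lemma ell {N : ℕ} (ω : Env N) {x : ℕ} (hx : x ≤ N) :
    ∑ i ∈ Finset.range x, ext ω (i + 1, N - 1) - ∑ i ∈ Finset.range x, ext ω (i, N) =
      M N ω x - max (-u N ω x) 0 := by
  induction x with
  | zero => simp [M, u]
  | succ x ih =>
    have i := ih (by omega)
    rw [Finset.sum_range_succ, Finset.sum_range_succ, M_succ]
    have h1 := u_succ ω hx
    have h2 := pos_sub_neg (u N ω (x + 1))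
    linarith

end Pool.Agent.FZ
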