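import Pool.Agent.FZ.Det

/-! # MP_f13560: `Phi` maps the cone of `pk` into the cone of the corner path -/

open MeasureTheory Pool.Agent.FX

namespace Pool.Agent.FZ

section
variable {N k : ℕ} {ω : Env N}

lemma cone_top (h : ω ∈ cone N (pk N k)) : lpp (ext ω) N N ≤ len N (pk N k) ω := by
  obtain ⟨v, hv, e⟩ := exists_path N ω
  rw [← e]; exact h.2 v hv

/-- (F1), (F2) -/
lemma cone_left (hN : 1 ≤ N) (hk : k ≤ N) (h : ω ∈ cone N (pk N k)) {x : ℕ} (hx : x ≤ k) :
    lpp (ext ω) x (N - 1) ≤ lpp (ext ω) 0 (N - 1) +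
      ∑ i ∈ Finset.range x, ext ω (i + 1, N - 1) := by
  have h1 := cone_top h
  rw [len_pk hN hk] at h1
  have h2 := lpp_top (ext ω) hN hk
  have h3 := lpp_run (ext ω) x (N - 1) (k - x)
  rw [show x + (k - x) = k by omega] at h3
  have h4 : ∑ i ∈ Finset.range k, ext ω (i + 1, N - 1) =
      ∑ i ∈ Finset.range x, ext ω (i + 1, N - 1) +
        ∑ i ∈ Finset.range (k - x), ext ω (x + 1 + i, N - 1) := by
    rw [show (k : ℕ) = x + (k - x) by omega, Finset.sum_range_add,
      show x + (k - x) - x = k - x by omega]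
    congr 1
    refine Finset.sum_congr rfl fun i _ => ?_
    rw [show x + i + 1 = x + 1 + i by omega]
  linarith

lemma cone_mid (hN : 1 ≤ N) (hk : k ≤ N) (h : ω ∈ cone N (pk N k)) {x : ℕ} (hx : x ≤ N) :
    lpp (ext ω) x (N - 1) - ∑ i ∈ Finset.range x, ext ω (i, N) ≤ lpp (ext ω) 0 (N - 1) +
      ∑ i ∈ Finset.range k, ext ω (i + 1, N - 1) - ∑ i ∈ Finset.range k, ext ω (i, N) := by
  have h1 := cone_top h
  rw [len_pk hN hk] at h1
  have h2 := lpp_top (ext ω) hN hx
  linarith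

lemma cone_ell (hN : 1 ≤ N) (hk : k ≤ N) (h : ω ∈ cone N (pk N k)) {x : ℕ} (hx : x ≤ N) :
    M N ω x - max (-u N ω x) 0 ≤ M N ω k - max (-u N ω k) 0 := by
  rw [← ell ω hx, ← ell ω hk]
  have h2 := cone_mid hN hk h hx
  have h3 := lpp_run (ext ω) 0 (N - 1) x
  have h4 : ∑ i ∈ Finset.range x, ext ω (0 + 1 + i, N - 1) =
      ∑ i ∈ Finset.range x, ext ω (i + 1, N - 1) :=
    Finset.sum_congr rfl fun i _ => by rw [show 0 + 1 + i = i + 1 by omega]
  rw [h4, show 0 + x = x by omega] at h3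
  linarith

lemma M_le (hN : 1 ≤ N) (hk : k ≤ N) (h : ω ∈ cone N (pk N k)) {x : ℕ} (hx : x ≤ N) :
    M N ω x ≤ M N ω k - max (-u N ω k) 0 := by
  induction x with
  | zero =>
    have := cone_ell hN hk h (x := 0) (by omega)
    simpa [M, u] using this
  | succ x ih =>
    have i := ih (by omega)
    rcases le_total (u N ω (x + 1)) 0 with h0 | h0
    · rw [M_succ, max_eq_right h0, add_zero]; exact i
    · have := cone_ell hN hk h hx
      rw [max_eq_right (show -u N ω (x + 1) ≤ 0 by linarith), sub_zero] at this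
      exact this

lemma u_nonneg (hN : 1 ≤ N) (hk1 : 1 ≤ k) (hk : k ≤ N) (h : ω ∈ cone N (pk N k)) :
    0 ≤ u N ω k := by
  obtain ⟨m, rfl⟩ : ∃ m, k = m + 1 := ⟨k - 1, by omega⟩
  have h1 := M_le hN hk h (x := m) (by omega)
  rw [M_succ] at h1
  have h2 := pos_sub_neg (u N ω (m + 1))
  linarith

lemma u_le (h : ∀ c, 0 ≤ ω c) {x : ℕ} (hx : x + 1 ≤ N) :
    u N ω (x + 1) ≤ ext ω (x + 1, N - 1) := by
  rw [u_succ ω hx]
  have h1 : 0 ≤ ext ω (x, N) := by rw [ext_at ω (by omega) (by omega)]; exact h _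
  have h2 : 0 ≤ max (-u N ω x) 0 := le_max_right _ _
  linarith

/-- the weights after the map are nonnegative -/
lemma Phi_nonneg (hN : 1 ≤ N) (hk1 : 1 ≤ k) (hk : k ≤ N) (h : ω ∈ cone N (pk N k)) :
    ∀ c, 0 ≤ Phi N k ω c := by
  intro c
  have hc := h.1 c
  have hu := u_nonneg hN hk1 hk h
  have ec : ext ω (c.1.val, c.2.val) = ω c := by
    rw [ext_at ω c.1.isLt c.2.isLt]
  have c1 := c.1.isLt
  unfold Phi
  split_ifs with h1 h2 h3 h4
  · obtain ⟨m, hm⟩ : ∃ m, c.1.val = m + 1 := ⟨c.1.val - 1, by omega⟩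
    have := u_le h.1 (x := m) (by omega)
    rw [h1.1, hm] at ec
    rw [hm]
    rw [ec] at this
    have := max_le this hc
    linarith
  · obtain ⟨m, hm⟩ : ∃ m, k = m + 1 := ⟨k - 1, by omega⟩
    have := u_le h.1 (x := m) (by omega)
    rw [h2.1, h2.2, hm] at ec
    rw [ec] at this
    rw [hm]
    linarith
  · have := le_max_right (u N ω c.1.val) 0
    linarith
  · linarith
  · exact hc

lemma le_ext_Phi (hN : 1 ≤ N) (hk1 : 1 ≤ k) (hk : k ≤ N) (h : ω ∈ cone N (pk N k)) {x y : ℕ}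
    (hx : x ≤ N) (hy : y ≤ N - 1) : ext (Phi N k ω) (x, y) ≤ ext ω (x, y) := by
  have hu := u_nonneg hN hk1 hk h
  rw [ext_Phi ω hx (by omega)]
  have := le_max_right (u N ω x) 0
  split_ifs with h1 h2 h3 h4
  · linarith
  · linarith
  · omega
  · omega
  · exact le_rfl

/-- the top row sums after the map -/
lemma top_sum (hN : 1 ≤ N) (hk1 : 1 ≤ k) (hk : k ≤ N) {x : ℕ} (hx : x + 1 ≤ N + 1) :
    ∑ i ∈ Finset.range (x + 1), ext (Phi N k ω) (i, N) =
      ∑ i ∈ Finset.range (x + 1), ext ω (i, N) + u N ω k + M N ω (min x (k - 1)) := by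
  induction x with
  | zero =>
    rw [Finset.sum_range_one, Finset.sum_range_one, ext_Phi ω (by omega) le_rfl]
    rw [if_neg (by omega), if_neg (by omega), if_neg (by omega), if_pos (by simp)]
    simp [M]
  | succ x ih =>
    rw [Finset.sum_range_succ, Finset.sum_range_succ (fun i => ext ω (i, N)), ih (by omega),
      ext_Phi ω (by omega) le_rfl, if_neg (by omega), if_neg (by omega)]
    by_cases hxk : x + 1 < k
    · rw [if_pos (by omega), min_eq_left (by omega), min_eq_left (by omega), M_succ]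
      ring
    · rw [if_neg (by omega), if_neg (by omega), min_eq_right (by omega), min_eq_right (by omega)]
      ring

theorem Phi_cone (hN : 1 ≤ N) (hk1 : 1 ≤ k) (hk : k ≤ N) (h : ω ∈ cone N (pk N k)) :
    Phi N k ω ∈ cone N (corner N) := by
  have hu := u_nonneg hN hk1 hk h
  have e0 : lpp (ext (Phi N k ω)) 0 (N - 1) = lpp (ext ω) 0 (N - 1) := by
    refine lpp_congr fun a ha b hb => ?_
    rw [ext_Phi ω (by omega) (by omega), if_neg (by omega), if_neg (by omega), if_neg (by omega),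
      if_neg (by omega)]
  refine mem_cone_corner hN (Phi_nonneg hN hk1 hk h) fun x hx1 hxN => ?_
  obtain ⟨m, rfl⟩ : ∃ m, x = m + 1 := ⟨x - 1, by omega⟩
  rw [e0, top_sum hN hk1 hk (by omega)]
  have hd := lpp_drop (w := ext ω) (w' := ext (Phi N k ω)) (i := m + 1) (j := N - 1)
    fun a ha b hb => le_ext_Phi hN hk1 hk h (by omega) hb
  have hell := ell ω hxN
  rw [M_succ] at hell
  have hM0 := M_nonneg ω (min m (k - 1))
  rcases lt_trichotomy (m + 1) k with hlt | heq | hgt
  · have hl := cone_left hN hk h hlt.le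
    rw [ext_Phi ω (by omega) (by omega), if_pos (by omega)] at hd
    rw [min_eq_left (by omega)]
    have hneg := le_max_right (-u N ω (m + 1)) 0
    linarith
  · have hl := cone_left hN hk h heq.le
    rw [ext_Phi ω (by omega) (by omega), if_neg (by omega), if_pos ⟨rfl, heq⟩] at hd
    rw [min_eq_left (by omega)]
    rw [heq] at hell hd hl ⊢
    have hneg := pos_sub_neg (u N ω k)
    linarith
  · have hl := cone_mid hN hk h hxN
    have hge := lpp_mono (w := ext (Phi N k ω)) (w' := ext ω) (i := m + 1) (j := N - 1)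
      fun a ha b hb => le_ext_Phi hN hk1 hk h (by omega) hb
    have helk := ell ω hk
    obtain ⟨q, rfl⟩ : ∃ q, k = q + 1 := ⟨k - 1, by omega⟩
    rw [min_eq_right (by omega), Nat.add_sub_cancel]
    rw [M_succ] at helk
    have hneg := pos_sub_neg (u N ω (q + 1))
    linarith

end

end Pool.Agent.FZ
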