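import Pool.Agent.FZ.Defs

open MeasureTheory ProbabilityTheory Pool.Agent.FX

namespace Pool.Agent.FZ

private lemma Law_lint {ι : Type} [Fintype ι] (f : ι → ℝ → ℝ) (hf : ∀ i, Integrable (f i))
    (h0 : ∀ i x, 0 ≤ f i x) :
    ∫⁻ w : ι → ℝ, ∏ i, ENNReal.ofReal (f i (w i)) = ∏ i, ∫⁻ x, ENNReal.ofReal (f i x) := by
  have e1 : ∀ w : ι → ℝ, ∏ i, ENNReal.ofReal (f i (w i)) = ENNReal.ofReal (∏ i, f i (w i)) := by
    intro w
    exact (ENNReal.ofReal_prod_of_nonneg (fun i _ => h0 i (w i))).symm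
  have e2 : ∀ i, ∫⁻ x, ENNReal.ofReal (f i x) = ENNReal.ofReal (∫ x, f i x) := by
    intro i
    exact (ofReal_integral_eq_lintegral_ofReal (hf i) (Filter.Eventually.of_forall (h0 i))).symm
  simp only [e1, e2]
  have hint : Integrable (fun w : ι → ℝ => ∏ i, f i (w i)) volume :=
    Integrable.fintype_prod (μ := fun _ : ι => volume) hf
  rw [← ofReal_integral_eq_lintegral_ofReal hint
    (Filter.Eventually.of_forall fun w => Finset.prod_nonneg fun i _ => h0 i (w i)),
    integral_fintype_prod_volume_eq_prod f,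
    ENNReal.ofReal_prod_of_nonneg (fun i _ => integral_nonneg (h0 i))]

private lemma Law_int : Integrable (exponentialPDFReal 1) := by
  refine ⟨(measurable_exponentialPDFReal 1).aestronglyMeasurable, ?_⟩
  rw [hasFiniteIntegral_iff_ofReal (Filter.Eventually.of_forall
    (exponentialPDFReal_nonneg one_pos))]
  have h1 := lintegral_exponentialPDF_eq_one (r := 1) one_pos
  unfold exponentialPDF at h1
  rw [h1]
  exact ENNReal.one_lt_top

/-- the density -/
private noncomputable def Law_f (N : ℕ) (w : Env N) : ENNReal := ∏ c, exponentialPDF 1 (w c)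

private lemma Law_f_meas (N : ℕ) : Measurable (Law_f N) := by
  unfold Law_f
  refine Finset.measurable_prod _ fun c _ => ?_
  exact (ENNReal.measurable_ofReal.comp (measurable_exponentialPDFReal 1)).comp
    (measurable_pi_apply c)

private lemma Law_dens (N : ℕ) : law N = (volume : Measure (Env N)).withDensity (Law_f N) := by
  have : IsProbabilityMeasure (expMeasure 1) := isProbabilityMeasure_expMeasure one_pos
  unfold law
  refine Measure.pi_eq fun s hs => ?_
  rw [withDensity_apply _ (MeasurableSet.univ_pi hs),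
    ← lintegral_indicator (MeasurableSet.univ_pi hs)]
  have h1 : (Set.univ.pi s).indicator (Law_f N) =
      fun w => ∏ c, ENNReal.ofReal ((s c).indicator (exponentialPDFReal 1) (w c)) := by
    funext w
    by_cases hw : w ∈ Set.univ.pi s
    · rw [Set.indicator_of_mem hw]
      refine Finset.prod_congr rfl fun c _ => ?_
      rw [Set.indicator_of_mem (hw c trivial)]
      rfl
    · rw [Set.indicator_of_notMem hw]
      have h2 : ∃ c, w c ∉ s c := by simpa [Set.mem_pi] using hw
      obtain ⟨c, hc⟩ := h2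
      refine (Finset.prod_eq_zero (Finset.mem_univ c) ?_).symm
      rw [Set.indicator_of_notMem hc, ENNReal.ofReal_zero]
  rw [h1, Law_lint (fun c => (s c).indicator (exponentialPDFReal 1))
    (fun c => Law_int.indicator (hs c))
    (fun c x => Set.indicator_nonneg (fun y _ => exponentialPDFReal_nonneg one_pos y) x)]
  refine Finset.prod_congr rfl fun c _ => ?_
  have h3 : expMeasure 1 = volume.withDensity (exponentialPDF 1) := rfl
  rw [h3, withDensity_apply _ (hs c), ← lintegral_indicator (hs c)]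
  refine lintegral_congr fun x => ?_
  by_cases hx : x ∈ s c
  · rw [Set.indicator_of_mem hx, Set.indicator_of_mem hx]
    rfl
  · rw [Set.indicator_of_notMem hx, Set.indicator_of_notMem hx, ENNReal.ofReal_zero]

private lemma Law_f_eq {N : ℕ} {w : Env N} (hw : ∀ c, 0 ≤ w c) :
    Law_f N w = ENNReal.ofReal (Real.exp (-∑ c, w c)) := by
  unfold Law_f
  have h1 : ∀ c ∈ (Finset.univ : Finset (Fin (N + 1) × Fin (N + 1))),
      exponentialPDF 1 (w c) = ENNReal.ofReal (Real.exp (-(w c))) := by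
    intro c _
    rw [exponentialPDF_of_nonneg (hw c), one_mul, one_mul]
  rw [Finset.prod_congr rfl h1, ← ENNReal.ofReal_prod_of_nonneg (fun c _ => (Real.exp_pos _).le),
    ← Real.exp_sum, Finset.sum_neg_distrib]

/-- LAW: exponential density `exp (-∑ ω)` on the orthant; a volume preserving `F` which preserves the sum
and keeps the orthant on `S` does not decrease probabilities -/
theorem law_le {N : ℕ} {F : Env N → Env N} (hF : MeasurePreserving F volume volume)
    (hs : ∀ ω, ∑ c, F ω c = ∑ c, ω c) {S T : Set (Env N)} (hT : MeasurableSet T)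
    (h : ∀ ω ∈ S, (∀ c, 0 ≤ ω c) ∧ (∀ c, 0 ≤ F ω c) ∧ F ω ∈ T) : law N S ≤ law N T := by
  have hO : MeasurableSet {ω : Env N | ∀ c, 0 ≤ ω c} := by
    have e : {ω : Env N | ∀ c, 0 ≤ ω c} = ⋂ c, {ω : Env N | 0 ≤ ω c} := by
      ext ω
      simp
    rw [e]
    exact MeasurableSet.iInter fun c => measurableSet_le measurable_const (measurable_pi_apply c)
  have hS' : MeasurableSet ({ω : Env N | ∀ c, 0 ≤ ω c} ∩ F ⁻¹' ({ω : Env N | ∀ c, 0 ≤ ω c} ∩ T)) :=
    hO.inter (hF.measurable (hO.inter hT))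
  have hsub : S ⊆ {ω : Env N | ∀ c, 0 ≤ ω c} ∩ F ⁻¹' ({ω : Env N | ∀ c, 0 ≤ ω c} ∩ T) := by
    intro ω hω
    obtain ⟨h1, h2, h3⟩ := h ω hω
    exact ⟨h1, h2, h3⟩
  refine (measure_mono hsub).trans ?_
  rw [Law_dens, withDensity_apply _ hS', withDensity_apply _ hT]
  calc ∫⁻ a in {ω : Env N | ∀ c, 0 ≤ ω c} ∩ F ⁻¹' ({ω : Env N | ∀ c, 0 ≤ ω c} ∩ T), Law_f N a
      = ∫⁻ a in {ω : Env N | ∀ c, 0 ≤ ω c} ∩ F ⁻¹' ({ω : Env N | ∀ c, 0 ≤ ω c} ∩ T),
          Law_f N (F a) := by
        refine setLIntegral_congr_fun hS' ?_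
        rintro ω ⟨h1, h2, h3⟩
        show Law_f N ω = Law_f N (F ω)
        rw [Law_f_eq h1, Law_f_eq h2, hs ω]
    _ ≤ ∫⁻ a in F ⁻¹' T, Law_f N (F a) := by
        refine lintegral_mono_set ?_
        rintro ω ⟨_, _, h3⟩
        exact h3
    _ = ∫⁻ a in T, Law_f N a := hF.setLIntegral_comp_preimage hT (Law_f_meas N)

end Pool.Agent.FZ
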