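import Pool.Agent.FZ.Defs

/-! # MP_f13560: volume preserving maps -/

open MeasureTheory Pool.Agent.FX

namespace Pool.Agent.FZ

lemma measurable_shear {N : ℕ} (c : Fin (N + 1) × Fin (N + 1)) {φ : Env N → ℝ}
    (hφ : Measurable φ) : Measurable (fun ω : Env N => Function.update ω c (ω c + φ ω)) := by
  refine measurable_pi_lambda _ fun d => ?_
  rcases eq_or_ne d c with rfl | h
  · simp only [Function.update_self]
    exact (measurable_pi_apply d).add hφ
  · simp only [Function.update_of_ne h]
    exact measurable_pi_apply d

/-- a single coordinate shear preserves volume -/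
theorem shear1 {N : ℕ} (c : Fin (N + 1) × Fin (N + 1)) {φ : Env N → ℝ} (hφ : Measurable φ)
    (hi : ∀ ω t, φ (Function.update ω c t) = φ ω) :
    MeasurePreserving (fun ω : Env N => Function.update ω c (ω c + φ ω)) volume volume := by
  have hm := measurable_shear c hφ
  refine ⟨hm, Measure.ext fun s hs => ?_⟩
  rw [Measure.map_apply hm hs, ← lintegral_indicator_one (hm hs), ← lintegral_indicator_one hs]
  refine lintegral_eq_of_lmarginal_eq (μ := fun _ => (volume : Measure ℝ)) {c} ?_ ?_ ?_
  · exact (measurable_one.indicator (hm hs))
  · exact (measurable_one.indicator hs)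
  · rw [lmarginal_singleton, lmarginal_singleton]
    funext ω
    have h := lintegral_add_right_eq_self (μ := (volume : Measure ℝ))
      (fun t => s.indicator (1 : Env N → ENNReal) (Function.update ω c t)) (φ ω)
    rw [← h]
    refine lintegral_congr fun t => ?_
    have key : Function.update ω c t ∈
        (fun ω : Env N => Function.update ω c (ω c + φ ω)) ⁻¹' s ↔
        Function.update ω c (t + φ ω) ∈ s := by
      rw [Set.mem_preimage, Function.update_self, hi, Function.update_idem]
    by_cases hh : Function.update ω c (t + φ ω) ∈ s
    · rw [Set.indicator_of_mem (key.2 hh), Set.indicator_of_mem hh]; rfl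
    · rw [Set.indicator_of_notMem (fun h' => hh (key.1 h')), Set.indicator_of_notMem hh]

/-- a coordinate permutation preserves volume -/
theorem perm1 {N : ℕ} (e : Equiv.Perm (Fin (N + 1) × Fin (N + 1))) :
    MeasurePreserving (fun ω : Env N => fun c => ω (e c)) volume volume := by
  have h := volume_measurePreserving_piCongrLeft (fun _ : Fin (N + 1) × Fin (N + 1) => ℝ) e.symm
  convert h using 1
  funext ω c
  have := MeasurableEquiv.piCongrLeft_apply_apply (β := fun _ : Fin (N + 1) × Fin (N + 1) => ℝ)
    (e := e.symm) ω (e c)
  simp only [Equiv.symm_apply_apply] at this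
  exact this.symm

end Pool.Agent.FZ
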