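import Pool.Agent.FZ.PhiMP

/-! # MP_f13560: `Phi` preserves volume, end -/

open MeasureTheory Pool.Agent.FX

namespace Pool.Agent.FZ

section
variable {N k : ℕ}

lemma f1_meas (i : ℕ) : Measurable (f1 N i) := by
  unfold f1; exact (measurable_pi_apply _).neg.sub (ng_meas _ _)

lemma f2_meas (i : ℕ) : Measurable (f2 N k i) := by
  unfold f2; exact (ng_meas _ _).sub (ng_meas _ _)

lemma f3_meas (i : ℕ) : Measurable (f3 N k i) := by
  unfold f3; exact (measurable_pi_apply _).add (ng_meas _ _)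

lemma ng_congr {p : Prop} [Decidable p] {x : ℕ} {ω ω' : Env N} (h : p → ω (cA N x) = ω' (cA N x)) :
    ng N p x ω = ng N p x ω' := by
  unfold ng
  split_ifs with hp
  · rw [h hp]
  · rfl

lemma pos_sub_neg' (t : ℝ) : max t 0 - max (-t) 0 = t := by
  rcases le_total t 0 with h | h
  · rw [max_eq_right h, max_eq_left (by linarith)]; ring
  · rw [max_eq_left h, max_eq_right (by linarith)]; ring

lemma mp1 (hN : 1 ≤ N) (hk : k ≤ N) :
    MeasurePreserving (run (fun i => cA N (i + 1)) (f1 N) k) volume volume := by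
  refine run_mp f1_meas fun i hi ω t => ?_
  unfold f1
  rw [Function.update_of_ne (fun e => cA_ne_cB hN _ _ e.symm), ng_congr fun _ => ?_]
  rw [Function.update_of_ne]
  intro e
  have := cA_inj (by omega) (by omega) e
  omega

lemma hi2 (hN : 1 ≤ N) (ω ω' : Env N) (i : ℕ) (h : ∀ d, (∀ j ≤ i, d ≠ cB N j) → ω d = ω' d) :
    f2 N k i ω = f2 N k i ω' := by
  unfold f2
  rw [ng_congr fun _ => h _ fun j _ => cA_ne_cB hN _ _,
    ng_congr fun _ => h _ fun j _ => cA_ne_cB hN _ _]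

lemma mp2 (hN : 1 ≤ N) :
    MeasurePreserving (run (cB N) (f2 N k) k) volume volume := by
  refine run_mp f2_meas fun i hi ω t => ?_
  refine hi2 hN _ _ i fun d hd => ?_
  rw [Function.update_of_ne (hd i le_rfl)]

lemma e3_eq_cA (i : ℕ) : ∃ x, e3 N k i = cA N x ∧ (i = 0 ∧ x = k ∨ 1 ≤ i ∧ x = i) := by
  unfold e3
  split_ifs with h
  · exact ⟨k, rfl, Or.inl ⟨h, rfl⟩⟩
  · exact ⟨i, rfl, Or.inr ⟨by omega, rfl⟩⟩

lemma hi3 (hN : 1 ≤ N) (hk1 : 1 ≤ k) (hk : k ≤ N) (ω ω' : Env N) (i : ℕ) (hik : i < k)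
    (h : ∀ d, (∀ j ≤ i, d ≠ e3 N k j) → ω d = ω' d) :
    f3 N k i ω = f3 N k i ω' := by
  unfold f3
  rw [ng_congr fun hp => h _ fun j hj e => ?_, h (cB N i) fun j _ e => ?_]
  · obtain ⟨x, hx, _⟩ := e3_eq_cA (N := N) (k := k) j
    rw [hx] at e
    exact cA_ne_cB hN _ _ e.symm
  · obtain ⟨x, hx, hx'⟩ := e3_eq_cA (N := N) (k := k) j
    rw [hx] at e
    have := cA_inj (by omega) (by omega) e
    omega

lemma mp3 (hN : 1 ≤ N) (hk1 : 1 ≤ k) (hk : k ≤ N) :
    MeasurePreserving (run (e3 N k) (f3 N k) k) volume volume := by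
  refine run_mp f3_meas fun i hi ω t => ?_
  refine hi3 hN hk1 hk _ _ i hi fun d hd => ?_
  rw [Function.update_of_ne (hd i le_rfl)]

/-- the final permutation -/
def sg (N k : ℕ) (c : Fin (N + 1) × Fin (N + 1)) : Fin (N + 1) × Fin (N + 1) :=
  if c.2.val = N - 1 ∧ 1 ≤ c.1.val ∧ c.1.val ≤ k then cB N (c.1.val - 1)
  else if c.2.val = N ∧ c.1.val < k then e3 N k c.1.val
  else c

lemma sg_inj (hN : 1 ≤ N) (hk1 : 1 ≤ k) (hk : k ≤ N) : Function.Injective (sg N k) := by
  intro c d h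
  have c1 := c.1.isLt
  have c2 := c.2.isLt
  have d1 := d.1.isLt
  have d2 := d.2.isLt
  have h1 := congrArg (fun c => c.1.val) h
  have h2 := congrArg (fun c => c.2.val) h
  have : c.1.val = d.1.val ∧ c.2.val = d.2.val := by
    simp only [sg, e3, cA, cB] at h1 h2
    split_ifs at h1 h2 <;> (try simp only at h1 h2) <;> omega
  exact Prod.ext (Fin.ext this.1) (Fin.ext this.2)

lemma mp4 (hN : 1 ≤ N) (hk1 : 1 ≤ k) (hk : k ≤ N) :
    MeasurePreserving (fun ω : Env N => fun c => ω (sg N k c)) volume volume := by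
  have hb := Finite.injective_iff_bijective.1 (sg_inj hN hk1 hk)
  exact perm1 (Equiv.ofBijective _ hb)

lemma Phi_eq (hN : 1 ≤ N) (hk1 : 1 ≤ k) (hk : k ≤ N) (ω : Env N) (c : Fin (N + 1) × Fin (N + 1)) :
    Phi N k ω c = run (e3 N k) (f3 N k) k (run (cB N) (f2 N k) k
      (run (fun i => cA N (i + 1)) (f1 N) k ω)) (sg N k c) := by
  set W1 := run (fun i => cA N (i + 1)) (f1 N) k ω with hW1
  set W2 := run (cB N) (f2 N k) k W1 with hW2
  set W3 := run (e3 N k) (f3 N k) k W2 with hW3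
  obtain ⟨s1, s1'⟩ := stage1 hN hk ω
  obtain ⟨s2, s2'⟩ := run_spec (c := cB N) (φ := f2 N k) (m := k)
    (fun i hi j hj e => cB_inj (by omega) (by omega) e)
    (fun i hi ω ω' h => hi2 hN ω ω' i h) W1
  obtain ⟨s3, s3'⟩ := run_spec (c := e3 N k) (φ := f3 N k) (m := k)
    (fun i hi j hj e => by
      obtain ⟨x, hx, hx'⟩ := e3_eq_cA (N := N) (k := k) i
      obtain ⟨y, hy, hy'⟩ := e3_eq_cA (N := N) (k := k) j
      rw [hx, hy] at e
      have := cA_inj (by omega) (by omega) e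
      omega)
    (fun i hi ω ω' h => hi3 hN hk1 hk ω ω' i hi h) W2
  rw [← hW1] at s1 s1'
  rw [← hW2] at s2 s2'
  rw [← hW3] at s3 s3'
  -- values
  have v1B : ∀ i, W1 (cB N i) = ω (cB N i) := fun i => s1' _ fun j _ e => cA_ne_cB hN _ _ e.symm
  have v2A : ∀ i, W2 (cA N i) = W1 (cA N i) := fun i => s2' _ fun j _ => cA_ne_cB hN _ _
  have v3B : ∀ i, W3 (cB N i) = W2 (cB N i) := fun i => s3' _ fun j _ e => by
    obtain ⟨x, hx, _⟩ := e3_eq_cA (N := N) (k := k) j
    rw [hx] at e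
    exact cA_ne_cB hN _ _ e.symm
  have g1 : ∀ i, i ≤ k → ng N (1 ≤ i) i W1 = max (-u N ω i) 0 := by
    intro i hi
    unfold ng
    split_ifs with h
    · rw [s1 i h hi]
    · obtain rfl : i = 0 := by omega
      simp [u]
  have g2 : ∀ i, i < k → ng N (i + 1 < k) (i + 1) W1 =
      if i + 1 < k then max (-u N ω (i + 1)) 0 else 0 := by
    intro i hi
    unfold ng
    split_ifs with h
    · rw [s1 (i + 1) (by omega) (by omega)]
    · rfl
  have g2' : ∀ i, i < k → ng N (i + 1 < k) (i + 1) W2 = ng N (i + 1 < k) (i + 1) W1 :=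
    fun i hi => ng_congr fun _ => v2A _
  have v2B : ∀ i < k, W2 (cB N i) = ω (cB N i) + max (-u N ω i) 0 -
      if i + 1 < k then max (-u N ω (i + 1)) 0 else 0 := by
    intro i hi
    rw [s2 i hi, v1B, f2, g1 i hi.le, g2 i hi]
    ring
  have hu : ∀ i, u N ω (i + 1) = ω (cA N (i + 1)) - ω (cB N i) - max (-u N ω i) 0 := fun i => by
    rw [u]
  have ce : ∀ x y : ℕ, c.1.val = x → c.2.val = y → ∀ d : Fin (N + 1) × Fin (N + 1),
      d.1.val = x → d.2.val = y → c = d := fun x y h1 h2 d h3 h4 =>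
    Prod.ext (Fin.ext (h1.trans h3.symm)) (Fin.ext (h2.trans h4.symm))
  have c1 := c.1.isLt
  have c2 := c.2.isLt
  by_cases hA : c.2.val = N - 1 ∧ 1 ≤ c.1.val ∧ c.1.val ≤ k
  · -- row N - 1
    obtain ⟨m, hm⟩ : ∃ m, c.1.val = m + 1 := ⟨c.1.val - 1, by omega⟩
    have hc : c = cA N (m + 1) := ce _ _ hm hA.1 _ (by simp [cA]; omega) (by simp [cA])
    have hs : sg N k c = cB N m := by
      rw [sg, if_pos hA, hm]; rfl
    rw [hs, v3B, v2B m (by omega)]
    unfold Phi
    have hcc : ω c = ω (cA N (m + 1)) := by rw [← hc]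
    have hum := hu m
    have hpn := pos_sub_neg' (u N ω (m + 1))
    by_cases hlt : m + 1 < k
    · rw [if_pos ⟨hA.1, hA.2.1, by omega⟩, if_pos hlt, hm, hcc]
      linarith
    · rw [if_neg (by omega), if_pos ⟨hA.1, by omega⟩, if_neg hlt, hcc,
        show k = m + 1 by omega]
      linarith
  · by_cases hB : c.2.val = N ∧ c.1.val < k
    · have hs : sg N k c = e3 N k c.1.val := by
        rw [sg, if_neg hA, if_pos hB]
      rw [hs, s3 _ hB.2, f3, g2' _ hB.2, g2 _ hB.2, v2B _ hB.2]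
      have hc : c = cB N c.1.val := ce _ _ rfl hB.1 _ (by simp [cB]; omega) (by simp [cB])
      have hcc : ω c = ω (cB N c.1.val) := congrArg ω hc
      unfold Phi
      rw [if_neg (by omega), if_neg (by omega)]
      by_cases h0 : c.1.val = 0
      · rw [if_neg (by omega), if_pos ⟨hB.1, h0⟩, hcc, h0, e3, if_pos rfl, v2A,
          s1 k hk1 le_rfl]
        simp only [u]
        simp only [neg_zero, max_self]
        ring
      · rw [if_pos ⟨hB.1, by omega, hB.2⟩, hcc, e3, if_neg h0, v2A, s1 _ (by omega) (by omega)]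
        have hpn := pos_sub_neg' (u N ω c.1.val)
        linarith
    · have hs : sg N k c = c := by
        rw [sg, if_neg hA, if_neg hB]
      rw [hs]
      unfold Phi
      rw [if_neg (by omega), if_neg (by omega), if_neg (by omega), if_neg (by omega)]
      rw [s3', s2', s1']
      · intro i hi e
        have e1 : c.1.val = min (i + 1) N := by rw [e]; rfl
        have e2 : c.2.val = N - 1 := by rw [e]; rfl
        exact hA ⟨e2, by omega, by omega⟩
      · intro i hi e
        have e1 : c.1.val = min i N := by rw [e]; rfl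
        have e2 : c.2.val = N := by rw [e]; rfl
        exact hB ⟨e2, by omega⟩
      · intro i hi e
        obtain ⟨x, hx, hx'⟩ := e3_eq_cA (N := N) (k := k) i
        rw [hx] at e
        have e1 : c.1.val = min x N := by rw [e]; rfl
        have e2 : c.2.val = N - 1 := by rw [e]; rfl
        exact hA ⟨e2, by omega, by omega⟩

theorem Phi_mp (hN : 1 ≤ N) (hk1 : 1 ≤ k) (hk : k ≤ N) :
    MeasurePreserving (Phi N k) volume volume := by
  have h := (mp4 hN hk1 hk).comp ((mp3 hN hk1 hk).comp ((mp2 (k := k) hN).comp (mp1 hN hk)))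
  have e : Phi N k = (fun ω : Env N => fun c => ω (sg N k c)) ∘ (run (e3 N k) (f3 N k) k ∘
      (run (cB N) (f2 N k) k ∘ run (fun i => cA N (i + 1)) (f1 N) k)) := by
    funext ω c
    exact Phi_eq hN hk1 hk ω c
  rw [e]
  exact h

end

end Pool.Agent.FZ
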