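import Pool.Agent.FX.PathL
import Pool.Agent.FX.Expo
import Pool.Agent.FZ.Defs

open MeasureTheory ProbabilityTheory Pool.Agent.FX

namespace Pool.Agent.FZ

private lemma Strict_Ioo {a b : ℝ} (ha : 0 ≤ a) (hab : a < b) :
    expMeasure 1 (Set.Ioo a b) ≠ 0 := by
  intro h0
  obtain ⟨c, hac, hcb⟩ := exists_between hab
  have hsub : Set.Ico c b ⊆ Set.Ioo a b := fun x hx => ⟨lt_of_lt_of_le hac hx.1, hx.2⟩
  have h1 : expMeasure 1 (Set.Ico c b) = 0 := measure_mono_null hsub h0
  have h2 : ({x : ℝ | c ≤ x} : Set ℝ) ⊆ Set.Ico c b ∪ {x | b ≤ x} := by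
    intro x hx
    rcases lt_or_ge x b with h | h
    · exact Or.inl ⟨hx, h⟩
    · exact Or.inr h
  have h3 : expMeasure 1 {x : ℝ | c ≤ x} ≤ expMeasure 1 {x : ℝ | b ≤ x} := by
    calc expMeasure 1 {x : ℝ | c ≤ x} ≤ expMeasure 1 (Set.Ico c b ∪ {x | b ≤ x}) :=
          measure_mono h2
      _ ≤ expMeasure 1 (Set.Ico c b) + expMeasure 1 {x | b ≤ x} := measure_union_le _ _
      _ = expMeasure 1 {x : ℝ | b ≤ x} := by rw [h1, zero_add]
  rw [E_tail (by linarith), E_tail (by linarith)] at h3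
  have h4 := (ENNReal.ofReal_le_ofReal_iff (Real.exp_pos _).le).1 h3
  have h5 := Real.exp_le_exp.1 h4
  linarith

private lemma Strict_lpp {w : ℕ × ℕ → ℝ} {δ : ℝ} {J : ℕ} (hδ : 0 ≤ δ)
    (h : ∀ i j, j ≤ J → (i, j) ≠ (1, 0) → w (i, j) ≤ δ) (h1 : w (1, 0) ≤ 4) (i : ℕ) :
    ∀ j, j ≤ J → lpp w i j ≤ (if i = 0 then 0 else 4) + ((i : ℝ) + j + 1) * δ := by
  induction i with
  | zero =>
    intro j
    induction j with
    | zero =>
      intro hj
      have := h 0 0 hj (by simp)
      rw [lpp, if_pos rfl]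
      push_cast
      linarith
    | succ j ihj =>
      intro hj
      have e1 := ihj (by omega)
      have e2 := h 0 (j + 1) hj (by simp)
      rw [if_pos rfl] at e1
      rw [lpp, if_pos rfl]
      push_cast at e1 ⊢
      linarith
  | succ i ihi =>
    intro j
    induction j with
    | zero =>
      intro hj
      have e1 := ihi 0 hj
      rw [lpp, if_neg (Nat.succ_ne_zero i)]
      by_cases hi : i = 0
      · subst hi
        rw [if_pos rfl] at e1
        push_cast at e1 ⊢
        have : w (0 + 1, 0) ≤ 4 := h1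
        linarith
      · rw [if_neg hi] at e1
        have e2 := h (i + 1) 0 hj (fun h0 => hi (by
          have := (Prod.mk.inj h0).1
          omega))
        push_cast at e1 ⊢
        linarith
    | succ j ihj =>
      intro hj
      have e1 := ihi (j + 1) hj
      have e2 := ihj (by omega)
      have e3 := h (i + 1) (j + 1) hj (fun h0 => by
        have := (Prod.mk.inj h0).2
        omega)
      rw [if_neg (Nat.succ_ne_zero i)] at e2
      rw [lpp, if_neg (Nat.succ_ne_zero i)]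
      have e4 : lpp w i (j + 1) ≤ 4 + ((i : ℝ) + (j + 1 : ℕ) + 1) * δ := by
        refine e1.trans ?_
        split_ifs
        · linarith
        · exact le_rfl
      have e5 : max (lpp w i (j + 1)) (lpp w (i + 1) j) ≤ 4 + ((i : ℝ) + (j : ℝ) + 1 + 1) * δ := by
        refine max_le ?_ ?_
        · push_cast at e4
          linarith
        · push_cast at e2
          linarith
      push_cast
      linarith

/-- O: top row in (10,11), `ω (1,0)` in (3,4), all others in (0, 1/(N+1)^2) -/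
theorem exists_box (N : ℕ) (hN : 2 ≤ N) : ∃ O : Set (Env N), MeasurableSet O ∧ 0 < law N O ∧
    O ⊆ cone N (corner N) ∧
    ∀ ω ∈ O, ∑ j ∈ Finset.range (N - 1), ext ω (0, j + 1) < ext ω (1, 0) := by
  classical
  have hNR : (2 : ℝ) ≤ N := by exact_mod_cast hN
  obtain ⟨δ, hδ⟩ : ∃ δ : ℝ, δ = 1 / ((N : ℝ) + 1) ^ 2 := ⟨_, rfl⟩
  have hδ0 : 0 < δ := by
    rw [hδ]
    positivity
  have hδN : (2 * (N : ℝ) + 1) * δ ≤ 1 := by
    rw [hδ, mul_one_div, div_le_one (by positivity)]
    nlinarith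
  obtain ⟨lo, hlo⟩ : ∃ lo : Fin (N + 1) × Fin (N + 1) → ℝ, lo = fun c : Fin (N + 1) × Fin (N + 1) =>
      if c.2.val = N then 10 else if c.1.val = 1 ∧ c.2.val = 0 then 3 else 0 := ⟨_, rfl⟩
  obtain ⟨hi, hhi⟩ : ∃ hi : Fin (N + 1) × Fin (N + 1) → ℝ, hi = fun c : Fin (N + 1) × Fin (N + 1) =>
      if c.2.val = N then 11 else if c.1.val = 1 ∧ c.2.val = 0 then 4 else δ := ⟨_, rfl⟩
  have hlo0 : ∀ c, 0 ≤ lo c := by
    intro c
    rw [hlo]
    show (0 : ℝ) ≤ if c.2.val = N then 10 else if c.1.val = 1 ∧ c.2.val = 0 then 3 else 0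
    split_ifs <;> norm_num
  have hlohi : ∀ c, lo c < hi c := by
    intro c
    rw [hlo, hhi]
    show (if c.2.val = N then (10 : ℝ) else if c.1.val = 1 ∧ c.2.val = 0 then 3 else 0) <
      if c.2.val = N then 11 else if c.1.val = 1 ∧ c.2.val = 0 then 4 else δ
    split_ifs
    · norm_num
    · norm_num
    · exact hδ0
  refine ⟨Set.pi Set.univ fun c => Set.Ioo (lo c) (hi c),
    MeasurableSet.univ_pi fun c => measurableSet_Ioo, ?_, ?_, ?_⟩
  · haveI : IsProbabilityMeasure (expMeasure 1) := isProbabilityMeasure_expMeasure one_pos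
    unfold law
    rw [Measure.pi_pi, pos_iff_ne_zero]
    exact Finset.prod_ne_zero_iff.2 fun c _ => Strict_Ioo (hlo0 c) (hlohi c)
  · intro ω hω
    have hω' : ∀ c, lo c < ω c ∧ ω c < hi c := fun c => hω c (Set.mem_univ c)
    have hpos : ∀ c, 0 ≤ ω c := fun c => (hlo0 c).trans (hω' c).1.le
    have hext : ∀ c, 0 ≤ ext ω c := by
      intro c
      unfold ext
      split_ifs
      · exact hpos _
      · exact le_rfl
    refine mem_cone_corner (by omega) hpos fun x hx1 hx2 => ?_
    have hb : ∀ i j, j ≤ N - 1 → (i, j) ≠ (1, 0) → ext ω (i, j) ≤ δ := by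
      intro i j hj hij
      unfold ext
      split_ifs with hc
      · have h1 := (hω' (⟨i, hc.1⟩, ⟨j, hc.2⟩)).2
        have h2 : hi (⟨i, hc.1⟩, ⟨j, hc.2⟩) = δ := by
          rw [hhi]
          show (if j = N then (11 : ℝ) else if i = 1 ∧ j = 0 then 4 else δ) = δ
          rw [if_neg (by omega), if_neg]
          rintro ⟨rfl, rfl⟩
          exact hij rfl
        rw [h2] at h1
        exact h1.le
      · exact hδ0.le
    have h10 : ext ω (1, 0) ≤ 4 := by
      unfold ext
      split_ifs with hc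
      · have h1 := (hω' (⟨1, hc.1⟩, ⟨0, hc.2⟩)).2
        have h2 : hi (⟨1, hc.1⟩, ⟨0, hc.2⟩) = 4 := by
          rw [hhi]
          show (if 0 = N then (11 : ℝ) else if 1 = 1 ∧ 0 = 0 then 4 else δ) = 4
          rw [if_neg (by omega), if_pos ⟨rfl, rfl⟩]
        rw [h2] at h1
        exact h1.le
      · norm_num
    have h3 := Strict_lpp hδ0.le hb h10 x (N - 1) le_rfl
    rw [if_neg (by omega)] at h3
    have h4 := lpp_nonneg hext 0 (N - 1)
    have h5 : ((x : ℝ) + (N - 1 : ℕ) + 1) * δ ≤ 1 := by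
      refine le_trans (mul_le_mul_of_nonneg_right ?_ hδ0.le) hδN
      have h6 : (x : ℝ) ≤ N := by exact_mod_cast hx2
      have h7 : ((N - 1 : ℕ) : ℝ) ≤ N := by exact_mod_cast Nat.sub_le N 1
      linarith
    have h8 : ext ω (0, N) ≤ ∑ i ∈ Finset.range x, ext ω (i, N) :=
      Finset.single_le_sum (f := fun i => ext ω (i, N)) (fun i _ => hext (i, N))
        (Finset.mem_range.2 (by omega))
    have h9 : 10 < ext ω (0, N) := by
      unfold ext
      rw [dif_pos ⟨by omega, by omega⟩]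
      have h1 := (hω' (⟨0, by omega⟩, ⟨N, by omega⟩)).1
      have h2 : lo (⟨0, by omega⟩, ⟨N, by omega⟩) = 10 := by
        rw [hlo]
        show (if N = N then (10 : ℝ) else if 0 = 1 ∧ N = 0 then 3 else 0) = 10
        rw [if_pos rfl]
      rw [h2] at h1
      exact h1
    linarith
  · intro ω hω
    have hω' : ∀ c, lo c < ω c ∧ ω c < hi c := fun c => hω c (Set.mem_univ c)
    have h1 : ∀ j ∈ Finset.range (N - 1), ext ω (0, j + 1) ≤ δ := by
      intro j hj
      have hj' := Finset.mem_range.1 hj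
      unfold ext
      rw [dif_pos ⟨by omega, by omega⟩]
      have h1 := (hω' (⟨0, by omega⟩, ⟨j + 1, by omega⟩)).2
      have h2 : hi (⟨0, by omega⟩, ⟨j + 1, by omega⟩) = δ := by
        rw [hhi]
        show (if j + 1 = N then (11 : ℝ) else if 0 = 1 ∧ j + 1 = 0 then 4 else δ) = δ
        rw [if_neg (by omega), if_neg (by omega)]
      rw [h2] at h1
      exact h1.le
    have h2 := Finset.sum_le_sum h1
    rw [Finset.sum_const, Finset.card_range, nsmul_eq_mul] at h2
    have h3 : ((N - 1 : ℕ) : ℝ) * δ ≤ 1 := by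
      refine le_trans (mul_le_mul_of_nonneg_right ?_ hδ0.le) hδN
      have h7 : ((N - 1 : ℕ) : ℝ) ≤ N := by exact_mod_cast Nat.sub_le N 1
      linarith
    have h4 : 3 < ext ω (1, 0) := by
      unfold ext
      rw [dif_pos ⟨by omega, by omega⟩]
      have h1 := (hω' (⟨1, by omega⟩, ⟨0, by omega⟩)).1
      have h2 : lo (⟨1, by omega⟩, ⟨0, by omega⟩) = 3 := by
        rw [hlo]
        show (if 0 = N then (10 : ℝ) else if 1 = 1 ∧ 0 = 0 then 3 else 0) = 3
        rw [if_neg (by omega), if_pos ⟨rfl, rfl⟩]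
      rw [h2] at h1
      exact h1
    linarith

end Pool.Agent.FZ
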