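import Pool.Agent.FZ.Det2
import Pool.Agent.FZ.PhiMP2
import Pool.Agent.FZ.Law
import Pool.Agent.FZ.Strict

/-! # MP_f13560: the paths `pk N k` are less likely than the corner path -/

open MeasureTheory ProbabilityTheory Pool.Agent.FX

namespace Pool.Agent.FZ

section
variable {N k : ℕ}

lemma sum_row {n r : ℕ} (hr : r < n + 1) (t : ℝ) :
    ∑ y : Fin (n + 1), (if y.val = r then t else 0) = t := by
  rw [Finset.sum_eq_single ⟨r, hr⟩]
  · simp
  · intro b _ hb
    rw [if_neg]
    intro e
    exact hb (Fin.ext e)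
  · simp

lemma sum_Phi (hN : 1 ≤ N) (hk1 : 1 ≤ k) (hk : k ≤ N) (ω : Env N) :
    ∑ c, Phi N k ω c = ∑ c, ω c := by
  set p : ℕ → ℝ := fun x => if 1 ≤ x ∧ x < k then max (u N ω x) 0 else if x = k then u N ω k else 0
    with hp
  set q : ℕ → ℝ := fun x => if 1 ≤ x ∧ x < k then max (u N ω x) 0 else if x = 0 then u N ω k else 0
    with hq
  have h : ∀ c, Phi N k ω c = ω c + ((if c.2.val = N then q c.1.val else 0) -
      (if c.2.val = N - 1 then p c.1.val else 0)) := by
    intro c
    simp only [Phi, hp, hq]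
    split_ifs <;> first | (exfalso; omega) | ring
  have e : ∀ x : ℕ, q x - p x = (if x = 0 then u N ω k else 0) - (if x = k then u N ω k else 0) := by
    intro x
    simp only [hp, hq]
    split_ifs <;> first | (exfalso; omega) | ring
  rw [Finset.sum_congr rfl fun c _ => h c, Finset.sum_add_distrib, Fintype.sum_prod_type
    (f := fun c : Fin (N + 1) × Fin (N + 1) => (if c.2.val = N then q c.1.val else 0) -
      (if c.2.val = N - 1 then p c.1.val else 0))]
  have : ∀ x : Fin (N + 1), ∑ y : Fin (N + 1), ((if y.val = N then q x.val else 0) -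
      (if y.val = N - 1 then p x.val else 0)) = (if x.val = 0 then u N ω k else 0) -
      (if x.val = k then u N ω k else 0) := by
    intro x
    rw [Finset.sum_sub_distrib, sum_row (by omega), sum_row (by omega), e]
  rw [Finset.sum_congr rfl fun x _ => this x, Finset.sum_sub_distrib, sum_row (by omega),
    sum_row (by omega)]
  ring

lemma continuous_len (v : ℕ → Fin (N + 1) × Fin (N + 1)) : Continuous (len N v) := by
  unfold len
  exact continuous_finset_sum _ fun i _ => continuous_apply _

lemma cone_closed (v : ℕ → Fin (N + 1) × Fin (N + 1)) : IsClosed (cone N v) := by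
  have : cone N v = (⋂ c, {ω : Env N | 0 ≤ ω c}) ∩
      ⋂ v', ⋂ (_ : IsPath N v'), {ω | len N v' ω ≤ len N v ω} := by
    ext ω; simp [cone]
  rw [this]
  exact (isClosed_iInter fun c => isClosed_le continuous_const (continuous_apply c)).inter
    (isClosed_iInter fun v' => isClosed_iInter fun _ =>
      isClosed_le (continuous_len v') (continuous_len v))

lemma ext_nonneg {ω : Env N} (h : ∀ c, 0 ≤ ω c) (c : ℕ × ℕ) : 0 ≤ ext ω c := by
  unfold ext
  split_ifs
  · exact h _
  · exact le_rfl

lemma lpp_mono_up {w : ℕ × ℕ → ℝ} (h : ∀ c, 0 ≤ w c) (x y d : ℕ) : lpp w x y ≤ lpp w x (y + d) := by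
  induction d with
  | zero => exact le_rfl
  | succ d ih =>
    have := lpp_up' w x (y + d)
    have := h (x, y + d + 1)
    rw [← add_assoc]
    linarith

lemma not_box (hN : 2 ≤ N) (hk1 : 1 ≤ k) (hk : k ≤ N) {ω : Env N} (h : ω ∈ cone N (pk N k)) :
    ext (Phi N k ω) (1, 0) ≤ ∑ j ∈ Finset.range (N - 1), ext (Phi N k ω) (0, j + 1) := by
  have e1 : ext (Phi N k ω) (1, 0) = ext ω (1, 0) := by
    rw [ext_Phi ω (by omega) (by omega), if_neg (by omega), if_neg (by omega), if_neg (by omega),
      if_neg (by omega)]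
  have e2 : ∑ j ∈ Finset.range (N - 1), ext (Phi N k ω) (0, j + 1) =
      ∑ j ∈ Finset.range (N - 1), ext ω (0, j + 1) := by
    refine Finset.sum_congr rfl fun j hj => ?_
    have := Finset.mem_range.1 hj
    rw [ext_Phi ω (by omega) (by omega), if_neg (by omega), if_neg (by omega), if_neg (by omega),
      if_neg (by omega)]
  rw [e1, e2]
  have h1 := cone_left (by omega) hk h hk1
  rw [Finset.sum_range_one, lpp_zero_left, show N - 1 + 1 = (N - 1) + 1 from rfl,
    Finset.sum_range_succ'] at h1
  have h2 := lpp_up' (ext ω) 1 (N - 2)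
  rw [show N - 2 + 1 = N - 1 by omega] at h2
  have h3 := lpp_mono_up (ext_nonneg h.1) 1 0 (N - 2)
  rw [zero_add] at h3
  have h4 : lpp (ext ω) 1 0 = ext ω (0, 0) + ext ω (1, 0) := by simp [lpp]
  simp only [zero_add] at h1
  linarith

theorem pk_lt (hN : 2 ≤ N) (hk1 : 1 ≤ k) (hk : k ≤ N) :
    law N (cone N (pk N k)) < law N (cone N (corner N)) := by
  obtain ⟨O, hO, hO0, hOc, hOb⟩ := exists_box N hN
  have hT : MeasurableSet (cone N (corner N) \ O) := (cone_closed _).measurableSet.diff hO
  have h := law_le (Phi_mp (by omega) hk1 hk) (sum_Phi (by omega) hk1 hk) (S := cone N (pk N k)) hT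
    fun ω hω => ⟨hω.1, Phi_nonneg (by omega) hk1 hk hω, Phi_cone (by omega) hk1 hk hω,
      fun hω' => absurd (hOb _ hω') (not_lt.2 (not_box hN hk1 hk hω))⟩
  haveI : IsProbabilityMeasure (expMeasure (1 : ℝ)) := isProbabilityMeasure_expMeasure one_pos
  haveI : IsProbabilityMeasure (law N) := by unfold law; infer_instance
  refine h.trans_lt ?_
  rw [measure_diff hOc hO.nullMeasurableSet (measure_ne_top _ _)]
  exact ENNReal.sub_lt_self (measure_ne_top _ _)
    (fun h0 => absurd (hO0.trans_le (measure_mono hOc)) (by rw [h0]; exact lt_irrefl _)) hO0.ne'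

end

end Pool.Agent.FZ
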