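import Pool.Agent.FZ.MT

/-! # MP_f13560: `Phi` preserves volume -/

open MeasureTheory Pool.Agent.FX

namespace Pool.Agent.FZ

/-- successive one-coordinate shears -/
noncomputable def run {N : ℕ} (c : ℕ → Fin (N + 1) × Fin (N + 1)) (φ : ℕ → Env N → ℝ) :
    ℕ → Env N → Env N
  | 0, ω => ω
  | m + 1, ω => Function.update (run c φ m ω) (c m) (run c φ m ω (c m) + φ m (run c φ m ω))

lemma run_mp {N : ℕ} {c : ℕ → Fin (N + 1) × Fin (N + 1)} {φ : ℕ → Env N → ℝ}
    (hφ : ∀ i, Measurable (φ i)) {m : ℕ}
    (hi : ∀ i < m, ∀ ω t, φ i (Function.update ω (c i) t) = φ i ω) :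
    MeasurePreserving (run c φ m) volume volume := by
  induction m with
  | zero => exact MeasurePreserving.id _
  | succ m ih =>
    have h1 := ih fun i him => hi i (by omega)
    have h2 := shear1 (c m) (hφ m) (hi m (by omega))
    exact h2.comp h1

/-- parallel form -/
lemma run_spec {N : ℕ} {c : ℕ → Fin (N + 1) × Fin (N + 1)} {φ : ℕ → Env N → ℝ} {m : ℕ}
    (hc : ∀ i < m, ∀ j < m, c i = c j → i = j)
    (hi : ∀ i < m, ∀ ω ω' : Env N, (∀ d, (∀ j ≤ i, d ≠ c j) → ω d = ω' d) → φ i ω = φ i ω')
    (ω : Env N) : (∀ i < m, run c φ m ω (c i) = ω (c i) + φ i ω) ∧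
      (∀ d, (∀ i < m, d ≠ c i) → run c φ m ω d = ω d) := by
  induction m with
  | zero => exact ⟨fun i h => by omega, fun d _ => rfl⟩
  | succ m ih =>
    obtain ⟨h1, h2⟩ := ih (fun i hi j hj => hc i (by omega) j (by omega))
      fun i him => hi i (by omega)
    have h3 : φ m (run c φ m ω) = φ m ω :=
      hi m (by omega) _ _ fun d hd => h2 d fun i him => hd i (by omega)
    refine ⟨fun i him => ?_, fun d hd => ?_⟩
    · rcases Nat.lt_or_ge i m with h | h
      · rw [run, Function.update_of_ne, h1 i h]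
        intro e
        have := hc i (by omega) m (by omega) e
        omega
      · obtain rfl : i = m := by omega
        rw [run, Function.update_self, h3, h2]
        intro j hj e
        have := hc i (by omega) j (by omega) e
        omega
    · rw [run, Function.update_of_ne (hd m (by omega)), h2 d fun i him => hd i (by omega)]

section
variable {N : ℕ}

lemma cA_ne_cB (hN : 1 ≤ N) (x y : ℕ) : cA N x ≠ cB N y := by
  intro h
  have := congrArg (fun c => c.2.val) h
  simp [cA, cB] at this
  omega

lemma cA_inj {x y : ℕ} (hx : x ≤ N) (hy : y ≤ N) (h : cA N x = cA N y) : x = y := by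
  have := congrArg (fun c => c.1.val) h
  simpa [cA, min_eq_left hx, min_eq_left hy] using this

lemma cB_inj {x y : ℕ} (hx : x ≤ N) (hy : y ≤ N) (h : cB N x = cB N y) : x = y := by
  have := congrArg (fun c => c.1.val) h
  simpa [cB, min_eq_left hx, min_eq_left hy] using this

/-- negative part of a slot, if `p` -/
noncomputable def ng (N : ℕ) (p : Prop) [Decidable p] (x : ℕ) (ω : Env N) : ℝ :=
  if p then max (-ω (cA N x)) 0 else 0

lemma ng_meas (p : Prop) [Decidable p] (x : ℕ) : Measurable (ng N p x) := by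
  unfold ng
  split_ifs
  · exact (measurable_pi_apply _).neg.max measurable_const
  · exact measurable_const

/-- stage one -/
noncomputable def f1 (N : ℕ) (i : ℕ) (ω : Env N) : ℝ := -ω (cB N i) - ng N (1 ≤ i) i ω

/-- stage two -/
noncomputable def f2 (N k : ℕ) (i : ℕ) (ω : Env N) : ℝ := ng N (1 ≤ i) i ω - ng N (i + 1 < k) (i + 1) ω

/-- stage three -/
noncomputable def f3 (N k : ℕ) (i : ℕ) (ω : Env N) : ℝ := ω (cB N i) + ng N (i + 1 < k) (i + 1) ω

/-- cells of stage three -/
def e3 (N k : ℕ) (i : ℕ) : Fin (N + 1) × Fin (N + 1) := if i = 0 then cA N k else cA N i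

lemma stage1 (hN : 1 ≤ N) {m : ℕ} (hm : m ≤ N) (ω : Env N) :
    (∀ i, 1 ≤ i → i ≤ m → run (fun i => cA N (i + 1)) (f1 N) m ω (cA N i) = u N ω i) ∧
    (∀ d, (∀ i < m, d ≠ cA N (i + 1)) → run (fun i => cA N (i + 1)) (f1 N) m ω d = ω d) := by
  induction m with
  | zero => exact ⟨fun i h1 h2 => by omega, fun d _ => rfl⟩
  | succ m ih =>
    obtain ⟨h1, h2⟩ := ih (by omega)
    have hB : run (fun i => cA N (i + 1)) (f1 N) m ω (cB N m) = ω (cB N m) :=
      h2 _ fun i _ e => cA_ne_cB hN _ _ e.symm
    have hA : run (fun i => cA N (i + 1)) (f1 N) m ω (cA N (m + 1)) = ω (cA N (m + 1)) :=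
      h2 _ fun i hi e => by have := cA_inj (by omega) (by omega) e; omega
    have hg : ng N (1 ≤ m) m (run (fun i => cA N (i + 1)) (f1 N) m ω) = max (-u N ω m) 0 := by
      unfold ng
      split_ifs with h0
      · rw [h1 m h0 le_rfl]
      · obtain rfl : m = 0 := by omega
        simp [u]
    refine ⟨fun i hi1 hi2 => ?_, fun d hd => ?_⟩
    · rcases Nat.lt_or_ge m i with h | h
      · obtain rfl : i = m + 1 := by omega
        simp only [run]
        rw [Function.update_self, hA, f1, hB, hg, u]
        ring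
      · simp only [run]
        rw [Function.update_of_ne, h1 i hi1 h]
        intro e
        have := cA_inj (by omega) (by omega) e
        omega
    · simp only [run]
      rw [Function.update_of_ne (hd m (by omega)), h2 d fun i him => hd i (by omega)]

end

end Pool.Agent.FZ
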